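import Pool.Agent.Work.MP_0ba68b_gt.Defs
import Mathlib.Geometry.Euclidean.Angle.Unoriented.TriangleInequality
import Mathlib.Geometry.Euclidean.Triangle
import Mathlib.Analysis.SpecialFunctions.Trigonometric.Bounds

/-!
Elementary facts on orbit spaces and distortion.
-/

open scoped ENNReal
open Real

namespace Pool.Agent.Work.MP_0ba68b_gt

noncomputable section

variable {V : Type} [MetricSpace V] {Γ : Subgroup (V ≃ᵢ V)}

/-- The orbit of a point. -/
def orb (Γ : Subgroup (V ≃ᵢ V)) (x : V) : Orbits Γ := ⟨{y | ∃ g ∈ Γ, g x = y}, x, rfl⟩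

lemma orb_surj (a : Orbits Γ) : ∃ x, a = orb Γ x := by
  obtain ⟨s, x, rfl⟩ := a
  exact ⟨x, rfl⟩

lemma orb_apply {g : V ≃ᵢ V} (hg : g ∈ Γ) (x : V) : orb Γ (g x) = orb Γ x := by
  apply Subtype.ext
  ext y
  constructor
  · rintro ⟨h, hh, rfl⟩
    exact ⟨h * g, Γ.mul_mem hh hg, rfl⟩
  · rintro ⟨h, hh, rfl⟩
    exact ⟨h * g⁻¹, Γ.mul_mem hh (Γ.inv_mem hg), by simp⟩

lemma orb_eq_iff {x y : V} : orb Γ x = orb Γ y ↔ ∃ g ∈ Γ, g x = y := by
  constructor
  · intro h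
    have : y ∈ (orb Γ y).1 := ⟨1, Γ.one_mem, rfl⟩
    rw [← h] at this
    exact this
  · rintro ⟨g, hg, rfl⟩
    exact (orb_apply hg x).symm

lemma odist_bdd (a b : Orbits Γ) : BddBelow {r | ∃ u ∈ a.1, ∃ v ∈ b.1, r = dist u v} :=
  ⟨0, by rintro r ⟨u, -, v, -, rfl⟩; exact dist_nonneg⟩

lemma odist_le {g : V ≃ᵢ V} (hg : g ∈ Γ) (x y : V) :
    odist (orb Γ x) (orb Γ y) ≤ dist (g x) y :=
  csInf_le (odist_bdd _ _) ⟨g x, ⟨g, hg, rfl⟩, y, ⟨1, Γ.one_mem, rfl⟩, rfl⟩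

lemma odist_le' (x y : V) : odist (orb Γ x) (orb Γ y) ≤ dist x y := odist_le Γ.one_mem x y

lemma le_odist {x y : V} {c : ℝ} (h : ∀ g ∈ Γ, c ≤ dist (g x) y) :
    c ≤ odist (orb Γ x) (orb Γ y) := by
  refine le_csInf ⟨dist x y, x, ⟨1, Γ.one_mem, rfl⟩, y, ⟨1, Γ.one_mem, rfl⟩, rfl⟩ ?_
  rintro r ⟨u, ⟨g, hg, rfl⟩, v, ⟨k, hk, rfl⟩, rfl⟩
  have := h (k⁻¹ * g) (Γ.mul_mem (Γ.inv_mem hk) hg)
  rwa [← k.dist_eq, IsometryEquiv.mul_apply, IsometryEquiv.apply_inv_self] at this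

lemma odist_nonneg (a b : Orbits Γ) : 0 ≤ odist a b := by
  obtain ⟨x, rfl⟩ := orb_surj a
  obtain ⟨y, rfl⟩ := orb_surj b
  exact le_odist fun _ _ => dist_nonneg

lemma odist_self (a : Orbits Γ) : odist a a = 0 := by
  obtain ⟨x, rfl⟩ := orb_surj a
  exact le_antisymm ((odist_le' x x).trans (dist_self x).le) (odist_nonneg _ _)

/-- A map with two sided bounds has small distortion. -/
lemma distortion_le {H : Type} [MetricSpace H] {f : Orbits Γ → H} {L : ℝ} (hL : 0 ≤ L)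
    (h1 : ∀ a b, odist a b ≤ dist (f a) (f b)) (h2 : ∀ a b, dist (f a) (f b) ≤ L * odist a b) :
    distortion f ≤ ENNReal.ofReal L := by
  have e1 : lip f ≤ ENNReal.ofReal L := by
    refine iSup_le fun a => iSup_le fun b => iSup_le fun _ => ?_
    refine ENNReal.div_le_of_le_mul ?_
    rw [edist_dist, ← ENNReal.ofReal_mul hL]
    exact ENNReal.ofReal_le_ofReal (h2 a b)
  have e2 : lipInv f ≤ 1 := by
    refine iSup_le fun a => iSup_le fun b => iSup_le fun _ => ?_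
    refine ENNReal.div_le_of_le_mul ?_
    rw [edist_dist, one_mul]
    exact ENNReal.ofReal_le_ofReal (h1 a b)
  unfold distortion
  rw [if_neg]
  · simpa using mul_le_mul' e1 e2
  · rintro (h | h)
    · rw [h] at e1; exact ENNReal.ofReal_ne_top (top_le_iff.mp e1)
    · rw [h] at e2; exact ENNReal.one_ne_top (top_le_iff.mp e2)

/-- An invariant map with two sided bounds descends to the orbit space. -/
lemma exists_descend {H : Type} [MetricSpace H] (F : V → H) {L : ℝ} (hL : 0 < L)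
    (h1 : ∀ x y, ∃ g ∈ Γ, dist (g x) y ≤ dist (F x) (F y))
    (h2 : ∀ x y, ∀ g ∈ Γ, dist (F x) (F y) ≤ L * dist (g x) y) :
    ∃ f : Orbits Γ → H, distortion f ≤ ENNReal.ofReal L := by
  choose r hr using fun a : Orbits Γ => orb_surj a
  refine ⟨fun a => F (r a), distortion_le hL.le (fun a b => ?_) fun a b => ?_⟩
  · obtain ⟨g, hg, h⟩ := h1 (r a) (r b)
    conv_lhs => rw [hr a, hr b]
    exact (odist_le hg _ _).trans h
  · conv_rhs => rw [hr a, hr b]
    rw [← div_le_iff₀' hL]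
    exact le_odist fun g hg => (div_le_iff₀' hL).mpr (h2 _ _ g hg)

/-- A map of finite distortion has two sided bounds. -/
lemma bounds_of_distortion {H : Type} [MetricSpace H] {f : Orbits Γ → H}
    (h : distortion f ≠ ⊤) : ∃ A B : ℝ, 0 ≤ A ∧ 0 ≤ B ∧ distortion f = ENNReal.ofReal (A * B) ∧
      (∀ a b, odist a b ≤ B * dist (f a) (f b)) ∧ ∀ a b, dist (f a) (f b) ≤ A * odist a b := by
  unfold distortion at h ⊢
  split_ifs at h ⊢ with hh
  · exact absurd rfl h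
  rw [not_or] at hh
  refine ⟨(lip f).toReal, (lipInv f).toReal, ENNReal.toReal_nonneg, ENNReal.toReal_nonneg, ?_,
    fun a b => ?_, fun a b => ?_⟩
  · rw [ENNReal.ofReal_mul ENNReal.toReal_nonneg, ENNReal.ofReal_toReal hh.1,
      ENNReal.ofReal_toReal hh.2]
  · by_cases hab : a = b
    · simp [hab, odist_self]
    have h1 : ENNReal.ofReal (odist a b) / edist (f a) (f b) ≤ lipInv f :=
      le_iSup_of_le a (le_iSup_of_le b (le_iSup_of_le hab le_rfl))
    rw [ENNReal.div_le_iff_le_mul (Or.inr hh.2) (Or.inl (edist_ne_top _ _)), edist_dist,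
      ← ENNReal.ofReal_toReal hh.2, ← ENNReal.ofReal_mul ENNReal.toReal_nonneg,
      ENNReal.ofReal_le_ofReal_iff (mul_nonneg ENNReal.toReal_nonneg dist_nonneg)] at h1
    exact h1
  · by_cases hab : a = b
    · simp [hab, odist_self]
    have h1 : edist (f a) (f b) / ENNReal.ofReal (odist a b) ≤ lip f :=
      le_iSup_of_le a (le_iSup_of_le b (le_iSup_of_le hab le_rfl))
    rw [ENNReal.div_le_iff_le_mul (Or.inr hh.1) (Or.inl ENNReal.ofReal_ne_top), edist_dist,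
      ← ENNReal.ofReal_toReal hh.1, ← ENNReal.ofReal_mul ENNReal.toReal_nonneg,
      ENNReal.ofReal_le_ofReal_iff (mul_nonneg ENNReal.toReal_nonneg (odist_nonneg _ _))] at h1
    exact h1

lemma c2_le {H : Type} [i1 : NormedAddCommGroup H] [i2 : InnerProductSpace ℝ H]
    [i3 : CompleteSpace H] (f : Orbits Γ → H) : c2 Γ ≤ distortion f := by
  unfold c2
  refine iInf_le_of_le H ?_
  refine iInf_le_of_le i1 ?_
  refine iInf_le_of_le i2 ?_
  refine iInf_le_of_le i3 ?_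
  exact iInf_le_of_le f le_rfl

lemma le_c2 {c : ℝ≥0∞} (h : ∀ (H : Type) [NormedAddCommGroup H] [InnerProductSpace ℝ H]
    [CompleteSpace H] (f : Orbits Γ → H), c ≤ distortion f) : c ≤ c2 Γ :=
  le_iInf fun H => le_iInf fun _ => le_iInf fun _ => le_iInf fun _ => le_iInf fun f => h H f

section Curve

variable {H : Type*} [NormedAddCommGroup H] [InnerProductSpace ℝ H]

open InnerProductGeometry

lemma angle_chain (v : ℕ → H) (k : ℕ) :
    angle (v 0) (v (k + 1)) ≤ ∑ i ∈ Finset.range (k + 1), angle (v i) (v (i + 1)) := by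
  induction k with
  | zero => simp
  | succ k ih =>
    rw [Finset.sum_range_succ]
    exact (angle_le_angle_add_angle (v 0) (v (k + 1)) _).trans (by linarith)

/-- A chain from `v` to `-v` outside the ball of radius `ρ` has a long step. -/
lemma chain_long {v : ℕ → H} {k : ℕ} (hk : 0 < k) {ρ δ : ℝ} (hρ : 0 < ρ) (hδ : 0 ≤ δ)
    (h0 : v k = -v 0) (h1 : ∀ i, ρ ≤ ‖v i‖) (h2 : ∀ i, ‖v i - v (i + 1)‖ ≤ δ) :
    2 * ρ * sin (π / (2 * k)) ≤ δ := by
  obtain ⟨k, rfl⟩ : ∃ j, k = j + 1 := ⟨k - 1, by omega⟩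
  have hv : v 0 ≠ 0 := fun h => by have := h1 0; rw [h, norm_zero] at this; linarith
  have h3 := angle_chain v k
  rw [h0, angle_self_neg_of_nonzero hv] at h3
  have hk' : (0 : ℝ) < (k + 1 : ℕ) := by positivity
  obtain ⟨i, -, hi⟩ : ∃ i ∈ Finset.range (k + 1), π / (k + 1 : ℕ) ≤ angle (v i) (v (i + 1)) := by
    apply Finset.exists_le_of_sum_le (by simp)
    rw [Finset.sum_const, Finset.card_range, nsmul_eq_mul, mul_div_cancel₀ _ hk'.ne']
    exact h3
  have h4 := norm_sub_sq_eq_norm_sq_add_norm_sq_sub_two_mul_norm_mul_norm_mul_cos_angle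
    (v i) (v (i + 1))
  have h5 : cos (angle (v i) (v (i + 1))) ≤ cos (π / (k + 1 : ℕ)) :=
    cos_le_cos_of_nonneg_of_le_pi (by positivity) (angle_le_pi _ _) hi
  have h6 : cos (π / (k + 1 : ℕ)) = 1 - 2 * sin (π / (2 * (k + 1 : ℕ))) ^ 2 := by
    rw [show π / (k + 1 : ℕ) = 2 * (π / (2 * (k + 1 : ℕ))) by field_simp, cos_two_mul,
      cos_sq']
    ring
  set s := sin (π / (2 * (k + 1 : ℕ)))
  have h7 : ρ * ρ ≤ ‖v i‖ * ‖v (i + 1)‖ := mul_le_mul (h1 i) (h1 _) hρ.le (norm_nonneg _)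
  have h8 : (2 * ρ * s) ^ 2 ≤ δ ^ 2 := by
    have h9 : ‖v i - v (i + 1)‖ * ‖v i - v (i + 1)‖ ≤ δ * δ :=
      mul_le_mul (h2 i) (h2 i) (norm_nonneg _) hδ
    have h10 : 2 * s ^ 2 ≤ 1 - cos (angle (v i) (v (i + 1))) := by linarith
    have h11 : ρ * ρ * (2 * s ^ 2) ≤ ‖v i‖ * ‖v (i + 1)‖ * (1 - cos (angle (v i) (v (i + 1)))) :=
      mul_le_mul h7 h10 (by positivity) (by positivity)
    nlinarith [sq_nonneg (‖v i‖ - ‖v (i + 1)‖)]
  exact (abs_le_of_sq_le_sq' h8 hδ).2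

/-- A closed Lipschitz curve has a short antipodal chord. -/
lemma closed_curve {u : ℝ → H} {P A ρ : ℝ} (hP : 0 < P) (hA : 0 ≤ A) (hρ : 0 < ρ)
    (hper : ∀ t, u (t + P) = u t) (hlip : ∀ s t, ‖u s - u t‖ ≤ A * |s - t|)
    (hfar : ∀ t, ρ ≤ ‖u (t + P / 2) - u t‖) : π * ρ ≤ A * P := by
  have key : ∀ k : ℕ, 0 < k → π * ρ - ρ * π ^ 3 / 24 / k ≤ A * P := by
    intro k hk
    have hk' : (0 : ℝ) < k := by positivity
    have hk1 : (1 : ℝ) ≤ k := by exact_mod_cast hk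
    have h := chain_long (v := fun i : ℕ => u (i * (P / (2 * k)) + P / 2) - u (i * (P / (2 * k))))
      hk hρ (δ := A * P / k) (by positivity) ?_ (fun i => hfar _) fun i => ?_
    · have h1 := sin_gt_sub_cube (x := π / (2 * k)) (by positivity)
      rw [le_div_iff₀ hk'] at h
      have h2 : 2 * ρ * (π / (2 * k) - (π / (2 * k)) ^ 3 / 6) * k ≤ 2 * ρ * sin (π / (2 * k)) * k := by
        gcongr
      have h3 : 2 * ρ * (π / (2 * k) - (π / (2 * k)) ^ 3 / 6) * k =
          π * ρ - ρ * π ^ 3 / 24 / k / k := by field_simp; ring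
      have h4 : ρ * π ^ 3 / 24 / k / k ≤ ρ * π ^ 3 / 24 / k :=
        div_le_self (by positivity) hk1
      linarith
    · have e : (k : ℝ) * (P / (2 * k)) = P / 2 := by field_simp
      simp only [e, Nat.cast_zero, zero_mul, zero_add, neg_sub]
      rw [show P / 2 + P / 2 = 0 + P by ring, hper]
    · have e : ∀ a b c d : H, a - b - (c - d) = (a - c) - (b - d) := fun a b c d => by abel
      rw [e]
      refine (norm_sub_le _ _).trans ((add_le_add (hlip _ _) (hlip _ _)).trans (le_of_eq ?_))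
      push_cast
      rw [show (i : ℝ) * (P / (2 * k)) + P / 2 - ((i + 1) * (P / (2 * k)) + P / 2) = -(P / (2 * k)) by
        ring, show (i : ℝ) * (P / (2 * k)) - (i + 1) * (P / (2 * k)) = -(P / (2 * k)) by ring,
        abs_neg, abs_of_pos (by positivity)]
      field_simp
      ring
  have hl := tendsto_const_div_atTop_nhds_zero_nat (ρ * π ^ 3 / 24)
  have hl2 := (tendsto_const_nhds (x := π * ρ)).sub hl
  rw [sub_zero] at hl2
  exact le_of_tendsto hl2 (Filter.eventually_atTop.mpr ⟨1, fun k hk => key k hk⟩)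

end Curve

end

end Pool.Agent.Work.MP_0ba68b_gt
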