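import Mathlib.Analysis.InnerProductSpace.PiL2
import Mathlib.Analysis.SpecialFunctions.Trigonometric.Bounds
import Mathlib.Analysis.SpecialFunctions.Trigonometric.Deriv
import Mathlib.Analysis.SpecialFunctions.Complex.Arg
import Mathlib.Analysis.Calculus.Deriv.MeanValue
import Mathlib.Analysis.Real.Pi.Bounds

/-!
Kernels of finite rank, and the inequalities for the binary dihedral groups.
-/

open scoped ComplexConjugate RealInnerProductSpace
open Real

namespace Pool.Agent.Work.MP_0ba68b_gt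

noncomputable section

/-- Complex kernels that come from a map into a finite dimensional Hermitian space. -/
def FRc {X : Type} (κ : X → X → ℂ) : Prop :=
  ∃ (ι : Type) (_ : Fintype ι) (F : X → ι → ℂ), ∀ x y, κ x y = ∑ i, F x i * conj (F y i)

variable {X : Type}

lemma FRc.congr {κ κ' : X → X → ℂ} (h : FRc κ) (e : ∀ x y, κ' x y = κ x y) : FRc κ' := by
  obtain ⟨ι, _, F, hF⟩ := h
  exact ⟨ι, inferInstance, F, fun x y => (e x y).trans (hF x y)⟩

lemma FRc.rankOne (f : X → ℂ) : FRc fun x y => f x * conj (f y) :=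
  ⟨Unit, inferInstance, fun x _ => f x, fun x y => by simp⟩

lemma FRc.add {κ κ' : X → X → ℂ} (h : FRc κ) (h' : FRc κ') : FRc fun x y => κ x y + κ' x y := by
  obtain ⟨ι, _, F, hF⟩ := h
  obtain ⟨ι', _, F', hF'⟩ := h'
  exact ⟨ι ⊕ ι', inferInstance, fun x => Sum.elim (F x) (F' x), fun x y => by
    simp [hF, hF', Fintype.sum_sum_type]⟩

lemma FRc.mul {κ κ' : X → X → ℂ} (h : FRc κ) (h' : FRc κ') : FRc fun x y => κ x y * κ' x y := by
  obtain ⟨ι, _, F, hF⟩ := h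
  obtain ⟨ι', _, F', hF'⟩ := h'
  refine ⟨ι × ι', inferInstance, fun x i => F x i.1 * F' x i.2, fun x y => ?_⟩
  simp only
  rw [hF, hF', Finset.sum_mul_sum, Fintype.sum_prod_type]
  refine Finset.sum_congr rfl fun i _ => Finset.sum_congr rfl fun j _ => ?_
  rw [map_mul]; ring

lemma FRc.const {c : ℝ} (hc : 0 ≤ c) : FRc fun _ _ : X => (c : ℂ) :=
  (FRc.rankOne fun _ => (√c : ℂ)).congr fun _ _ => by
    rw [Complex.conj_ofReal, ← Complex.ofReal_mul, Real.mul_self_sqrt hc]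

lemma FRc.pow {κ : X → X → ℂ} (h : FRc κ) (n : ℕ) : FRc fun x y => κ x y ^ n := by
  induction n with
  | zero => exact (FRc.const zero_le_one).congr fun _ _ => by simp
  | succ n ih => exact (ih.mul h).congr fun _ _ => pow_succ _ _

lemma FRc.smul {κ : X → X → ℂ} (h : FRc κ) {c : ℝ} (hc : 0 ≤ c) : FRc fun x y => c * κ x y :=
  (FRc.const hc).mul h

lemma FRc.sym2 {κ : X → X → ℂ} (h : FRc κ) (T : X → X) :
    FRc fun x y => κ x y + κ x (T y) + κ (T x) y + κ (T x) (T y) := by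
  obtain ⟨ι, _, F, hF⟩ := h
  refine ⟨ι, inferInstance, fun x i => F x i + F (T x) i, fun x y => ?_⟩
  simp only [hF, ← Finset.sum_add_distrib, map_add]
  exact Finset.sum_congr rfl fun i _ => by ring

lemma FRc.comp {Y : Type} {κ : X → X → ℂ} (h : FRc κ) (T : Y → X) :
    FRc fun x y => κ (T x) (T y) := by
  obtain ⟨ι, _, F, hF⟩ := h
  exact ⟨ι, inferInstance, fun x => F (T x), fun x y => hF _ _⟩

lemma FRc.exists_map {κ : X → X → ℂ} (h : FRc κ) :
    ∃ (k : ℕ) (F : X → EuclideanSpace ℝ (Fin k)), ∀ x y, ⟪F x, F y⟫ = (κ x y).re := by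
  obtain ⟨ι, _, F, hF⟩ := h
  let e := Fintype.equivFin (ι ⊕ ι)
  refine ⟨Fintype.card (ι ⊕ ι), fun x => WithLp.toLp 2 fun i =>
    Sum.elim (fun j => (F x j).re) (fun j => (F x j).im) (e.symm i), fun x y => ?_⟩
  rw [PiLp.inner_apply, hF, Complex.re_sum, ← e.sum_comp, Fintype.sum_sum_type,
    ← Finset.sum_add_distrib]
  refine Finset.sum_congr rfl fun i _ => ?_
  simp
  ring

/-- The comparison of `sin (t / p)` with `sin t`. -/
lemma sin_div_le {p t : ℝ} (hp : 1 ≤ p) (h0 : 0 ≤ t) (h1 : t ≤ π / 2) :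
    sin (t / p) ≤ sin (π / 2 / p) * sin t := by
  have hp0 : 0 < p := by linarith only [hp]
  have hW : ∀ s ∈ Set.Icc 0 (π / 2), cos s * sin (s / p) - sin s * (cos (s / p) / p) ≤ 0 := by
    intro s hs
    have hd : ∀ x, HasDerivAt (fun s => cos s * sin (s / p) - sin s * (cos (s / p) / p))
        (-((1 - 1 / p ^ 2) * (sin x * sin (x / p)))) x := by
      intro x
      have a1 := ((hasDerivAt_id x).div_const p).sin
      have a2 := ((hasDerivAt_id x).div_const p).cos.div_const p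
      have := ((hasDerivAt_cos x).mul a1).sub ((hasDerivAt_sin x).mul a2)
      refine this.congr_deriv ?_
      simp only [id]
      field_simp
      ring
    have hanti := antitoneOn_of_deriv_nonpos (convex_Icc 0 (π / 2))
      (fun x _ => (hd x).continuousAt.continuousWithinAt)
      (fun x _ => (hd x).differentiableAt.differentiableWithinAt) (fun x hx => by
        rw [(hd x).deriv]
        rw [interior_Icc] at hx
        have b1 : 0 ≤ sin x := sin_nonneg_of_nonneg_of_le_pi hx.1.le (by linarith only [h0, h1, hx, hx.2, pi_pos])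
        have b2 : 0 ≤ sin (x / p) := sin_nonneg_of_nonneg_of_le_pi (div_nonneg hx.1.le hp0.le)
          ((div_le_self hx.1.le hp).trans (by linarith only [h0, h1, hx, hx.2, pi_pos]))
        have b3 : 0 ≤ 1 - 1 / p ^ 2 := by
          rw [sub_nonneg, div_le_one (by positivity)]; linarith only [hp, mul_nonneg_of_nonpos_of_nonpos (Mathlib.Tactic.Linarith.sub_nonpos_of_le hp) (Mathlib.Tactic.Linarith.sub_nonpos_of_le hp)]
        have := mul_nonneg b3 (mul_nonneg b1 b2)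
        linarith only [this])
    have := hanti ⟨le_rfl, by positivity⟩ hs hs.1
    simpa using this
  rcases h0.eq_or_lt with h | h
  · simp [← h]
  have hs : ∀ s ∈ Set.Icc t (π / 2), 0 < sin (s / p) := fun s hs =>
    sin_pos_of_pos_of_lt_pi (div_pos (h.trans_le hs.1) hp0)
      ((div_le_self (h.le.trans hs.1) hp).trans_lt (by linarith only [h1, h, hs, hs.2, pi_pos]))
  have hd : ∀ x ∈ Set.Icc t (π / 2), HasDerivAt (fun s => sin s / sin (s / p))
      ((cos x * sin (x / p) - sin x * (cos (x / p) / p)) / sin (x / p) ^ 2) x := by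
    intro x hx
    have a1 := ((hasDerivAt_id x).div_const p).sin
    have := (hasDerivAt_sin x).div a1 (hs x hx).ne'
    refine this.congr_deriv ?_
    simp only [id]
    ring
  have hanti := antitoneOn_of_deriv_nonpos (convex_Icc t (π / 2))
    (fun x hx => (hd x hx).continuousAt.continuousWithinAt)
    (fun x hx => (hd x (interior_subset hx)).differentiableAt.differentiableWithinAt)
    (fun x hx => by
      have hx' := interior_subset hx
      rw [(hd x hx').deriv]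
      exact div_nonpos_of_nonpos_of_nonneg (hW x ⟨h.le.trans hx'.1, hx'.2⟩) (sq_nonneg _))
  have := hanti ⟨le_rfl, h1⟩ ⟨h1, le_rfl⟩ h1
  simp only [sin_pi_div_two] at this
  rw [div_le_div_iff₀ (hs _ ⟨h1, le_rfl⟩) (hs _ ⟨le_rfl, h1⟩)] at this
  linarith only [this]

lemma two_sub_cos (x : ℝ) : 2 - 2 * cos x = 4 * sin (x / 2) ^ 2 := by
  rw [show x = 2 * (x / 2) by ring, cos_two_mul, cos_sq']
  ring_nf

/-- The inequality on the circle. -/
lemma circle_ineq {p φ : ℝ} (hp : 1 ≤ p) (hφ : |φ| ≤ π / p) :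
    2 - 2 * cos φ ≤ sin (π / (2 * p)) ^ 2 * (2 - 2 * cos (p * φ)) := by
  have hp0 : 0 < p := by linarith
  wlog h0 : 0 ≤ φ generalizing φ
  · have := this (φ := -φ) (by rwa [abs_neg]) (by linarith)
    rwa [mul_neg, cos_neg, cos_neg] at this
  rw [abs_of_nonneg h0, le_div_iff₀ hp0] at hφ
  have h := sin_div_le (t := p * φ / 2) hp (by positivity) (by linarith)
  rw [show p * φ / 2 / p = φ / 2 by field_simp, show π / 2 / p = π / (2 * p) by field_simp] at h
  have h1 : 0 ≤ sin (φ / 2) :=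
    sin_nonneg_of_nonneg_of_le_pi (by positivity) (by linarith only [hφ, hp, h0, pi_pos, mul_nonneg_of_nonpos_of_nonpos (Mathlib.Tactic.Linarith.sub_nonpos_of_le hp) (Mathlib.Tactic.Linarith.sub_nonpos_of_le h0)])
  rw [two_sub_cos, two_sub_cos]
  have := pow_le_pow_left₀ h1 h 2
  linarith only [this]

lemma norm_one_sub_pow_le {h : ℂ} (hh : ‖h‖ ≤ 1) (p : ℕ) : ‖1 - h ^ p‖ ≤ p * ‖1 - h‖ := by
  induction p with
  | zero => simp
  | succ p ih =>
    have e : 1 - h ^ (p + 1) = (1 - h ^ p) + h ^ p * (1 - h) := by ring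
    rw [e]
    refine (norm_add_le _ _).trans ?_
    rw [norm_mul, norm_pow]
    have := mul_le_of_le_one_left (norm_nonneg (1 - h)) (pow_le_one₀ (norm_nonneg h) hh (n := p))
    push_cast
    linarith

lemma one_sub_pow_le {r : ℝ} (h0 : 0 ≤ r) (p : ℕ) : 1 - r ^ p ≤ p * (1 - r) := by
  have := one_add_mul_le_pow (a := r - 1) (by linarith) p
  rw [add_sub_cancel] at this
  linarith

lemma two_sub_re (z : ℂ) : 2 - 2 * z.re = ‖1 - z‖ ^ 2 + (1 - ‖z‖ ^ 2) := by
  rw [Complex.sq_norm, Complex.sq_norm, Complex.normSq_apply, Complex.normSq_apply]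
  simp
  ring

/-- The squared distance of the embedding on the unit sphere. -/
def psi (p : ℕ) (α : ℝ) (h w : ℂ) : ℝ :=
  α * (2 - 2 * (h ^ p).re - 2 * (w ^ p).re) + (p ^ 2 - p) * α * (‖h‖ ^ 2 * ‖w‖ ^ 2)

lemma psi_comm (p : ℕ) (α : ℝ) (h w : ℂ) : psi p α h w = psi p α w h := by
  unfold psi; ring

lemma psi_upper {p : ℕ} (hp : 4 ≤ p) {α : ℝ} (hα : 0 ≤ α) {h w : ℂ}
    (hn : ‖h‖ ^ 2 + ‖w‖ ^ 2 = 1) : psi p α h w ≤ p ^ 2 * α * (2 - 2 * h.re) := by
  have hp' : (4 : ℝ) ≤ p := by exact_mod_cast hp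
  have h1 : ‖h‖ ≤ 1 := by (refine le_of_not_gt fun h_nl => ?_; linarith only [h_nl, hn, norm_nonneg h, sq_nonneg ‖w‖, sq_nonneg ‖w‖, mul_pos_of_neg_of_neg (Mathlib.Tactic.Linarith.sub_neg_of_lt h_nl) (Mathlib.Tactic.Linarith.sub_neg_of_lt h_nl)])
  have h2 : ‖w‖ ≤ 1 := by (refine le_of_not_gt fun h_nl => ?_; linarith only [h_nl, hn, norm_nonneg w, sq_nonneg ‖h‖, sq_nonneg ‖h‖, mul_pos_of_neg_of_neg (Mathlib.Tactic.Linarith.sub_neg_of_lt h_nl) (Mathlib.Tactic.Linarith.sub_neg_of_lt h_nl)])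
  have a1 : ‖1 - h ^ p‖ ^ 2 ≤ (p * ‖1 - h‖) ^ 2 :=
    pow_le_pow_left₀ (norm_nonneg _) (norm_one_sub_pow_le h1 p) 2
  have a2 : 1 - ‖h ^ p‖ ^ 2 ≤ p * ‖w‖ ^ 2 := by
    have := one_sub_pow_le (sq_nonneg ‖h‖) p
    rw [norm_pow, ← pow_mul, mul_comm p 2, pow_mul]
    rwa [show 1 - ‖h‖ ^ 2 = ‖w‖ ^ 2 by linarith only [hn]] at this
  have a3 : -(w ^ p).re ≤ ‖w‖ ^ 4 := by
    refine (neg_le_abs _).trans ((Complex.abs_re_le_norm _).trans ?_)
    rw [norm_pow]
    exact pow_le_pow_of_le_one (norm_nonneg _) h2 hp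
  have a4 : ‖h‖ ^ 2 = 1 - ‖w‖ ^ 2 := by linarith only [hn]
  have a5 : 2 * ‖w‖ ^ 4 ≤ (p ^ 2 - p) * ‖w‖ ^ 4 := by gcongr; linarith only [hp', mul_nonneg_of_nonpos_of_nonpos (Mathlib.Tactic.Linarith.sub_nonpos_of_le (Mathlib.Tactic.Linarith.natCast_nonneg ℝ p)) (Mathlib.Tactic.Linarith.sub_nonpos_of_le hp')]
  unfold psi
  rw [mul_assoc _ α, mul_left_comm _ α, ← mul_add, mul_assoc _ α, mul_left_comm _ α]
  gcongr
  rw [two_sub_re, two_sub_re, a4]
  linarith only [a1, a2, a3, a5]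

lemma poly_ineq {p α r s2 rp sp : ℝ} (hp : 24 ≤ p) (hα0 : 0 ≤ α) (hα : p ^ 2 * α ≤ 2.4675)
    (hα' : 2.462 ≤ p ^ 2 * α) (hr : 0.7071 ≤ r) (hr1 : r ≤ 1) (hs : s2 = 1 - r ^ 2)
    (hrp : 0 ≤ rp) (hrp' : 1 - rp ≤ p * (1 - r)) (hsp : sp ≤ 1 / 2048 * s2) :
    2 - 2 * r + α * (4 * r - 2 - 2 * rp + 2 * sp) ≤ (p ^ 2 - p) * α * (r ^ 2 * s2) := by
  have hB : 2.359 ≤ (p ^ 2 - p) * α := by
    have : 23 / 24 * p ^ 2 ≤ p ^ 2 - p := by linarith only [hp, mul_nonneg_of_nonpos_of_nonpos (Mathlib.Tactic.Linarith.sub_nonpos_of_le hp) (Mathlib.Tactic.Linarith.sub_nonpos_of_le hp)]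
    have := mul_le_mul_of_nonneg_right this hα0
    linarith only [hα', this]
  have ha1 : α ≤ 0.004284 := by
    have : 576 * α ≤ p ^ 2 * α := mul_le_mul_of_nonneg_right (by linarith only [hp, mul_nonneg_of_nonpos_of_nonpos (Mathlib.Tactic.Linarith.sub_nonpos_of_le hp) (Mathlib.Tactic.Linarith.sub_nonpos_of_le hp)]) hα0
    linarith only [hα, this]
  have ha2 : p * α ≤ 0.103 := by
    have : 24 * (p * α) ≤ p * (p * α) := mul_le_mul_of_nonneg_right hp (by positivity)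
    linarith only [hα, this]
  have hs0 : 0 ≤ s2 := by rw [hs]; linarith only [hr1, hr, mul_nonneg_of_nonpos_of_nonpos (Mathlib.Tactic.Linarith.sub_nonpos_of_le hr) (Mathlib.Tactic.Linarith.sub_nonpos_of_le hr1)]
  refine le_trans ?_ (mul_le_mul_of_nonneg_right hB (by positivity))
  have hd : 0 ≤ 1 - r := by linarith only [hr1]
  rcases le_total r 0.76 with h | h
  · have b1 : 4 * r - 2 - 2 * rp + 2 * sp ≤ 4 * r - 2 + 1 / 1024 := by linarith only [hs, hrp, hsp, sq_nonneg r]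
    have b2 : α * (4 * r - 2 - 2 * rp + 2 * sp) ≤ 0.004284 * (4 * r - 2 + 1 / 1024) :=
      (mul_le_mul_of_nonneg_left b1 hα0).trans (mul_le_mul_of_nonneg_right ha1 (by linarith only [hr]))
    have b3 : 2 - 2 * r + 0.004284 * (4 * r - 2 + 1 / 1024) ≤ 2.359 * (r ^ 2 * s2) := by
      rw [hs]
      obtain ⟨e, rfl⟩ : ∃ e, r = 0.7071 + e := ⟨r - 0.7071, by ring⟩
      have he : 0 ≤ e := by linarith only [hr]
      have he' : e ≤ 0.053 := by linarith only [h]
      linarith only [hr, he, he', mul_nonneg he (sub_nonneg.mpr he'), mul_nonneg (mul_nonneg he he) (sub_nonneg.mpr he'),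
        mul_nonneg (mul_nonneg he (mul_nonneg he he)) (sub_nonneg.mpr he')]
    linarith only [b2, b3]
  · have b1 : 4 * r - 2 - 2 * rp + 2 * sp ≤ 2 * p * (1 - r) := by linarith only [hr1, hs, hrp', hsp, mul_nonneg_of_nonpos_of_nonpos (Mathlib.Tactic.Linarith.sub_nonpos_of_le hr1) (Mathlib.Tactic.Linarith.sub_nonpos_of_le hr1)]
    have b2 : α * (4 * r - 2 - 2 * rp + 2 * sp) ≤ 0.206 * (1 - r) := by
      refine (mul_le_mul_of_nonneg_left b1 hα0).trans ?_
      have := mul_le_mul_of_nonneg_right ha2 hd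
      linarith only [this]
    have b3 : 2.206 ≤ 2.359 * (r ^ 2 * (1 + r)) := by linarith only [h, hr, mul_nonneg_of_nonpos_of_nonpos (Mathlib.Tactic.Linarith.sub_nonpos_of_le (sq_nonneg r)) (Mathlib.Tactic.Linarith.sub_nonpos_of_le hr), mul_nonneg_of_nonpos_of_nonpos (Mathlib.Tactic.Linarith.sub_nonpos_of_le hr) (Mathlib.Tactic.Linarith.sub_nonpos_of_le hr)]
    have b4 := mul_le_mul_of_nonneg_right b3 hd
    rw [hs]
    linarith only [b2, b4]

lemma alpha_bounds {p : ℝ} (hp : 24 ≤ p) :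
    p ^ 2 * sin (π / (2 * p)) ^ 2 ≤ 2.4675 ∧ 2.462 ≤ p ^ 2 * sin (π / (2 * p)) ^ 2 := by
  have hp0 : 0 < p := by linarith
  have hu : 0 < π / (2 * p) := by positivity
  have h1 := sin_le hu.le
  have h2 := sin_gt_sub_cube hu
  have h3 := pi_gt_d4
  have h4 := pi_lt_d4
  have hu1 : π / (2 * p) ≤ 0.066 := by rw [div_le_iff₀ (by positivity)]; linarith only [hp, h3, h4]
  have e : p * (π / (2 * p)) = π / 2 := by field_simp
  set u := π / (2 * p)
  have h5 : p * sin u ≤ 1.5708 := by linarith only [h4, h1, e, hp, mul_nonneg_of_nonpos_of_nonpos (Mathlib.Tactic.Linarith.sub_nonpos_of_le hp) (Mathlib.Tactic.Linarith.sub_nonpos_of_le h1)]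
  have h6 : 1.5696 ≤ p * sin u := by
    have b0 : u ^ 2 ≤ 0.066 ^ 2 := pow_le_pow_left₀ hu.le hu1 2
    have b0' := mul_le_mul_of_nonneg_left b0 hu.le
    have b1 : u * (1 - 0.00073) ≤ sin u := by linarith only [h1, h2, b0']
    have b2 := mul_le_mul_of_nonneg_left b1 hp0.le
    linarith only [h3, h1, h2, hu1, e, b0', b2]
  rw [← mul_pow]
  constructor <;> (refine le_of_not_gt fun h_nl => ?_; linarith only [h_nl, h4, h1, e, hp, hu, hu1, h5, h6, mul_nonneg_of_nonpos_of_nonpos (Mathlib.Tactic.Linarith.sub_nonpos_of_le hp) (Mathlib.Tactic.Linarith.sub_nonpos_of_le h1), mul_pos_of_neg_of_neg (Mathlib.Tactic.Linarith.sub_neg_of_lt hu) (Mathlib.Tactic.Linarith.sub_neg_of_lt h_nl), mul_nonneg_of_nonpos_of_nonpos (Mathlib.Tactic.Linarith.sub_nonpos_of_le hu1) (le_of_lt (Mathlib.Tactic.Linarith.sub_neg_of_lt h_nl)), mul_nonneg_of_nonpos_of_nonpos (Mathlib.Tactic.Linarith.sub_nonpos_of_le h5) (Mathlib.Tactic.Linarith.sub_nonpos_of_le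 h6), mul_nonneg_of_nonpos_of_nonpos (Mathlib.Tactic.Linarith.sub_nonpos_of_le h5) (Mathlib.Tactic.Linarith.sub_nonpos_of_le h5)])

lemma psi_lower {p : ℕ} (hp : 24 ≤ p) {h w : ℂ} (hn : ‖h‖ ^ 2 + ‖w‖ ^ 2 = 1) (hw : ‖w‖ ≤ ‖h‖) :
    ∃ u : ℂ, u ^ p = 1 ∧ 2 - 2 * (u * h).re ≤ psi p (sin (π / (2 * p)) ^ 2) h w := by
  have hp' : (24 : ℝ) ≤ p := by exact_mod_cast hp
  have hp0 : (0 : ℝ) < p := by linarith
  set k : ℤ := round (Complex.arg h * p / (2 * π)) with hk
  set φ : ℝ := Complex.arg h - 2 * π * k / p with hφ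
  have hφ1 : |φ| ≤ π / p := by
    have h1 := abs_sub_round (Complex.arg h * p / (2 * π))
    have e : φ = (2 * π / p) * (Complex.arg h * p / (2 * π) - k) := by
      rw [hφ]; field_simp
    rw [e, abs_mul, abs_of_pos (by positivity : 0 < 2 * π / p)]
    calc _ ≤ 2 * π / p * (1 / 2) := by gcongr
      _ = _ := by ring
  set u : ℂ := Complex.exp ((-(2 * π * k / p) : ℝ) * Complex.I) with hu
  have hup : u ^ p = 1 := by
    rw [hu, ← Complex.exp_nat_mul, Complex.exp_eq_one_iff]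
    refine ⟨-k, ?_⟩
    have : (p : ℂ) ≠ 0 := by exact_mod_cast hp0.ne'
    push_cast
    field_simp
  have huh : u * h = ‖h‖ * Complex.exp (φ * Complex.I) := by
    conv_lhs => rw [← Complex.norm_mul_exp_arg_mul_I h]
    rw [hu, mul_left_comm, ← Complex.exp_add, hφ]
    push_cast
    ring_nf
  have e1 : (u * h).re = ‖h‖ * cos φ := by
    rw [huh, Complex.re_ofReal_mul, Complex.exp_ofReal_mul_I_re]
  have e2 : (h ^ p).re = ‖h‖ ^ p * cos (p * φ) := by
    rw [← one_mul (h ^ p), ← hup, ← mul_pow, huh, mul_pow, ← Complex.exp_nat_mul, ← mul_assoc,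
      ← Complex.ofReal_natCast, ← Complex.ofReal_mul, ← Complex.ofReal_pow, Complex.re_ofReal_mul,
      Complex.exp_ofReal_mul_I_re]
  refine ⟨u, hup, ?_⟩
  have hc := circle_ineq (by linarith only [hp']) hφ1
  obtain ⟨hα1, hα2⟩ := alpha_bounds hp'
  set α := sin (π / (2 * p)) ^ 2
  have hα0 : 0 ≤ α := sq_nonneg _
  have hw2 : ‖w‖ ^ 2 ≤ ‖h‖ ^ 2 := pow_le_pow_left₀ (norm_nonneg _) hw 2
  have hr1 : ‖h‖ ≤ 1 := by (refine le_of_not_gt fun h_nl => ?_; linarith only [h_nl, hn, norm_nonneg h, sq_nonneg ‖w‖, sq_nonneg ‖w‖, mul_pos_of_neg_of_neg (Mathlib.Tactic.Linarith.sub_neg_of_lt h_nl) (Mathlib.Tactic.Linarith.sub_neg_of_lt h_nl)])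
  have hr : 0.7071 ≤ ‖h‖ := by
    by_contra hh
    linarith only [hn, hw2, hh, norm_nonneg h, mul_nonneg_of_nonpos_of_nonpos (le_of_lt (Mathlib.Tactic.Linarith.sub_neg_of_lt (lt_of_not_ge hh))) (Mathlib.Tactic.Linarith.sub_nonpos_of_le (norm_nonneg h))]
  have hsp : (w ^ p).re ≤ 1 / 2048 * ‖w‖ ^ 2 := by
    refine (Complex.re_le_norm _).trans ?_
    rw [norm_pow]
    have b1 : ‖w‖ ^ p ≤ ‖w‖ ^ 24 := pow_le_pow_of_le_one (norm_nonneg _) (hw.trans hr1) hp
    have b2 : (‖w‖ ^ 2) ^ 11 ≤ (1 / 2) ^ 11 := pow_le_pow_left₀ (sq_nonneg _) (by linarith only [hn, hw2]) 11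
    have b3 := mul_le_mul_of_nonneg_right b2 (sq_nonneg ‖w‖)
    calc _ ≤ ‖w‖ ^ 24 := b1
      _ = (‖w‖ ^ 2) ^ 11 * ‖w‖ ^ 2 := by ring
      _ ≤ _ := b3
      _ = _ := by norm_num
  have key := poly_ineq hp' hα0 hα1 hα2 hr hr1 (s2 := ‖w‖ ^ 2) (by linarith only [hn])
    (pow_nonneg (norm_nonneg h) p) (one_sub_pow_le (norm_nonneg h) p) hsp
  have hrp : ‖h‖ ^ p ≤ ‖h‖ := pow_le_of_le_one (norm_nonneg _) hr1 (by omega)
  unfold psi
  rw [e1, e2]
  set r := ‖h‖
  set c := cos (p * φ)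
  have c1 : -1 ≤ c := neg_one_le_cos _
  have c2 := mul_le_mul_of_nonneg_left hc (show 0 ≤ r by linarith only [hr])
  have c3 : α * ((2 - 2 * c) * (r - r ^ p)) ≤ α * (4 * (r - r ^ p)) :=
    mul_le_mul_of_nonneg_left (mul_le_mul_of_nonneg_right (by linarith only [c1]) (by linarith only [hrp])) hα0
  linarith only [key, c2, c3]

end

end Pool.Agent.Work.MP_0ba68b_gt
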