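import Pool.Agent.Work.MP_0ba68b_gt.BDDef
import Pool.Agent.Work.MP_0ba68b_gt.Basic
import Pool.Agent.Work.MP_0ba68b_gt.Kernel
import Mathlib.RingTheory.RootsOfUnity.Complex

/-!
The Euclidean distortion of the quotients by the binary dihedral groups.
-/

open Quaternion Real
open scoped ComplexConjugate RealInnerProductSpace

namespace Pool.Agent.Work.MP_0ba68b_gt

noncomputable section

/-- First complex coordinate. -/
def cA (x : ℍ[ℝ]) : ℂ := ⟨x.re, x.imI⟩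

/-- Second complex coordinate. -/
def cB (x : ℍ[ℝ]) : ℂ := ⟨x.imJ, x.imK⟩

/-- The Hermitian product. -/
def hh (x y : ℍ[ℝ]) : ℂ := cA x * conj (cA y) + cB x * conj (cB y)

/-- The symplectic product. -/
def om (x y : ℍ[ℝ]) : ℂ := cA x * cB y - cB x * cA y

lemma cA_coe_mul (u : ℂ) (x : ℍ[ℝ]) : cA (u * x) = u * cA x := by
  apply Complex.ext <;> simp [cA]

lemma cB_coe_mul (u : ℂ) (x : ℍ[ℝ]) : cB (u * x) = u * cB x := by
  apply Complex.ext <;> simp [cB]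

lemma cA_j (x : ℍ[ℝ]) : cA (jq * x) = -conj (cB x) := by
  apply Complex.ext <;> simp [cA, cB, jq]

lemma cB_j (x : ℍ[ℝ]) : cB (jq * x) = conj (cA x) := by
  apply Complex.ext <;> simp [cA, cB, jq]

lemma hh_coe_mul (u : ℂ) (x y : ℍ[ℝ]) : hh (u * x) y = u * hh x y := by
  simp only [hh, cA_coe_mul, cB_coe_mul]; ring

lemma hh_j_left (x y : ℍ[ℝ]) : hh (jq * x) y = conj (om x y) := by
  simp only [hh, om, cA_j, cB_j, map_sub, map_mul]; ring

lemma hh_j_right (x y : ℍ[ℝ]) : hh x (jq * y) = -om x y := by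
  simp only [hh, om, cA_j, cB_j, map_neg, Complex.conj_conj]; ring

lemma hh_j_j (x y : ℍ[ℝ]) : hh (jq * x) (jq * y) = conj (hh x y) := by
  simp only [hh, cA_j, cB_j, map_neg, Complex.conj_conj, map_add, map_mul]; ring

lemma inner_eq_hh (x y : ℍ[ℝ]) : ⟪x, y⟫ = (hh x y).re := by
  simp [Quaternion.inner_def, hh, cA, cB]
  ring

lemma normsq_eq (x : ℍ[ℝ]) : ‖x‖ ^ 2 = x.re ^ 2 + x.imI ^ 2 + x.imJ ^ 2 + x.imK ^ 2 := by
  rw [sq, ← Quaternion.normSq_eq_norm_mul_self, Quaternion.normSq_def']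

lemma hh_om (x y : ℍ[ℝ]) : ‖hh x y‖ ^ 2 + ‖om x y‖ ^ 2 = ‖x‖ ^ 2 * ‖y‖ ^ 2 := by
  rw [Complex.sq_norm, Complex.sq_norm, Complex.normSq_apply, Complex.normSq_apply, normsq_eq,
    normsq_eq]
  simp [hh, om, cA, cB]
  ring

lemma hh_self {x : ℍ[ℝ]} (hx : ‖x‖ = 1) : hh x x = 1 := by
  have := normsq_eq x
  rw [hx] at this
  apply Complex.ext
  · simp [hh, cA, cB]; linarith
  · simp [hh, cA, cB]; ring

lemma om_self (x : ℍ[ℝ]) : om x x = 0 := by simp [om, mul_comm]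

lemma norm_jq : ‖jq‖ = 1 := by
  have h : ‖jq‖ ^ 2 = 1 := by rw [normsq_eq]; simp [jq]
  nlinarith [norm_nonneg jq]

lemma norm_coeC (u : ℂ) : ‖(u : ℍ[ℝ])‖ = ‖u‖ := by
  have := normsq_eq (u : ℍ[ℝ])
  rw [← sq_eq_sq₀ (norm_nonneg _) (norm_nonneg _), this, Complex.sq_norm, Complex.normSq_apply]
  simp
  ring

lemma jq_mul_coe (u : ℂ) : jq * (u : ℍ[ℝ]) = (conj u : ℂ) * jq := by
  ext <;> simp [jq]

lemma jq_mul_jq : jq * jq = -1 := by
  ext <;> simp [jq]

lemma coeC_neg (u : ℂ) : ((-u : ℂ) : ℍ[ℝ]) = -(u : ℍ[ℝ]) := by ext <;> simp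

/-- Left multiplication by a unit quaternion. -/
def lm (g : ℍ[ℝ]) (hg : ‖g‖ = 1) : ℍ[ℝ] ≃ᵢ ℍ[ℝ] where
  toEquiv := Equiv.mulLeft₀ g (by rintro rfl; simp at hg)
  isometry_toFun := Isometry.of_dist_eq fun x y => by
    simp only [Equiv.toFun_as_coe, Equiv.mulLeft₀_apply, dist_eq_norm]
    rw [← mul_sub, norm_mul, hg, one_mul]

lemma lm_apply (g : ℍ[ℝ]) (hg : ‖g‖ = 1) (x : ℍ[ℝ]) : lm g hg x = g * x := rfl

lemma norm_of_pow {p : ℕ} (hp : p ≠ 0) {u : ℂ} (hu : u ^ p = 1) : ‖u‖ = 1 :=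
  Complex.norm_eq_one_of_pow_eq_one hu hp

lemma zeta_eq (n : ℕ) : zetaQ n = (Complex.exp ((π / n : ℝ) * Complex.I) : ℂ) := by
  ext
  · simp only [re_coeComplex, Complex.exp_ofReal_mul_I_re, zetaQ]
  · simp only [imI_coeComplex, Complex.exp_ofReal_mul_I_im, zetaQ]
  · simp [zetaQ]
  · simp [zetaQ]

lemma zeta_prim {n : ℕ} (hn : n ≠ 0) :
    IsPrimitiveRoot (Complex.exp ((π / n : ℝ) * Complex.I)) (2 * n) := by
  have := Complex.isPrimitiveRoot_exp (2 * n) (by omega)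
  convert this using 2
  have : (n : ℂ) ≠ 0 := by exact_mod_cast hn
  push_cast
  field_simp

lemma mem_BD_form {n : ℕ} (hn : n ≠ 0) {γ : ℍ[ℝ] ≃ᵢ ℍ[ℝ]} (hγ : γ ∈ BD n) :
    ∃ u : ℂ, u ^ (2 * n) = 1 ∧ ((∀ x, γ x = u * x) ∨ ∀ x, γ x = u * (jq * x)) := by
  have hev : Even (2 * n) := even_two_mul n
  have hc : ∀ u : ℂ, u ^ (2 * n) = 1 → conj u ^ (2 * n) = 1 := fun u hu => by
    rw [← map_pow, hu, map_one]
  have hj : ∀ (u : ℂ) (x : ℍ[ℝ]), jq * (u * x) = (conj u : ℂ) * (jq * x) := fun u x => by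
    rw [← mul_assoc, jq_mul_coe, mul_assoc]
  have hjj : ∀ x : ℍ[ℝ], jq * (jq * x) = -x := fun x => by rw [← mul_assoc, jq_mul_jq, neg_one_mul]
  induction hγ using Subgroup.closure_induction with
  | mem g hg =>
    rcases hg with hg | hg
    · exact ⟨_, (zeta_prim hn).pow_eq_one, Or.inl fun x => by rw [hg, zeta_eq]⟩
    · exact ⟨1, one_pow _, Or.inr fun x => by rw [hg, coeComplex_one, one_mul]⟩
  | one => exact ⟨1, one_pow _, Or.inl fun x => by rw [coeComplex_one, one_mul]; rfl⟩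
  | mul g k _ _ ihg ihk =>
    obtain ⟨u, hu, h1⟩ := ihg
    obtain ⟨v, hv, h2⟩ := ihk
    rcases h1 with h1 | h1 <;> rcases h2 with h2 | h2
    · exact ⟨u * v, by rw [mul_pow, hu, hv, one_mul], Or.inl fun x => by
        rw [IsometryEquiv.mul_apply, h1, h2, coeComplex_mul, mul_assoc]⟩
    · exact ⟨u * v, by rw [mul_pow, hu, hv, one_mul], Or.inr fun x => by
        rw [IsometryEquiv.mul_apply, h1, h2, coeComplex_mul, mul_assoc]⟩
    · exact ⟨u * conj v, by rw [mul_pow, hu, hc v hv, one_mul], Or.inr fun x => by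
        rw [IsometryEquiv.mul_apply, h1, h2, hj, coeComplex_mul, mul_assoc]⟩
    · exact ⟨-(u * conj v), by rw [hev.neg_pow, mul_pow, hu, hc v hv, one_mul], Or.inl fun x => by
        rw [IsometryEquiv.mul_apply, h1, h2, hj, hjj, coeC_neg, coeComplex_mul]
        simp [mul_assoc]⟩
  | inv g _ ih =>
    obtain ⟨u, hu, h1⟩ := ih
    have hu1 : u * conj u = 1 := by
      rw [Complex.mul_conj, Complex.normSq_eq_norm_sq, norm_of_pow (by omega) hu]; simp
    rcases h1 with h1 | h1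
    · refine ⟨conj u, hc u hu, Or.inl fun x => g.injective ?_⟩
      rw [IsometryEquiv.apply_inv_self, h1, ← mul_assoc, ← coeComplex_mul, hu1, coeComplex_one,
        one_mul]
    · refine ⟨-u, by rw [hev.neg_pow, hu], Or.inr fun x => g.injective ?_⟩
      rw [IsometryEquiv.apply_inv_self, h1, hj, hjj, ← mul_assoc, ← coeComplex_mul, map_neg, mul_neg u,
        hu1, coeC_neg, coeComplex_one]
      simp

lemma exists_BD {n : ℕ} (hn : n ≠ 0) {u : ℂ} (hu : u ^ (2 * n) = 1) :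
    (∃ γ ∈ BD n, ∀ x, γ x = u * x) ∧ ∃ γ ∈ BD n, ∀ x, γ x = u * (jq * x) := by
  have : NeZero (2 * n) := ⟨by omega⟩
  obtain ⟨k, -, rfl⟩ := (zeta_prim hn).eq_pow_of_pow_eq_one hu
  set ζ := Complex.exp ((π / n : ℝ) * Complex.I)
  have hζ : ‖(ζ : ℍ[ℝ])‖ = 1 := by rw [norm_coeC]; exact Complex.norm_exp_ofReal_mul_I _
  have m1 : lm _ hζ ∈ BD n := Subgroup.subset_closure (Or.inl fun x => by rw [zeta_eq]; rfl)
  have m2 : lm _ norm_jq ∈ BD n := Subgroup.subset_closure (Or.inr fun x => rfl)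
  have e : ∀ (k : ℕ) (x : ℍ[ℝ]), (lm _ hζ ^ k) x = (ζ ^ k : ℂ) * x := by
    intro k
    induction k with
    | zero => intro x; rw [pow_zero, pow_zero, coeComplex_one, one_mul]; rfl
    | succ k ih =>
      intro x
      rw [pow_succ, pow_succ, IsometryEquiv.mul_apply, ih, lm_apply, coeComplex_mul, mul_assoc]
  exact ⟨⟨_, pow_mem m1 k, e k⟩, _, mul_mem (pow_mem m1 k) m2, fun x => by
    rw [IsometryEquiv.mul_apply, e, lm_apply]⟩

lemma dist_sq_unit {x y : ℍ[ℝ]} (hx : ‖x‖ = 1) (hy : ‖y‖ = 1) :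
    ‖x - y‖ ^ 2 = 2 - 2 * (hh x y).re := by
  rw [@norm_sub_sq_real, hx, hy, inner_eq_hh]; ring

/-- Homogeneous extension of a kernel on the unit sphere. -/
lemma cone_extend {V : Type} [NormedAddCommGroup V] [InnerProductSpace ℝ V] {e : V} (he : ‖e‖ = 1)
    {Γ : Subgroup (V ≃ᵢ V)} (hΓ : ∀ g ∈ Γ, ∀ (t : ℝ) (x : V), g (t • x) = t • g x)
    (hΓ' : ∀ g ∈ Γ, ∀ x : V, ‖g x‖ = ‖x‖)
    {E : Type} [NormedAddCommGroup E] [InnerProductSpace ℝ E] (Φ : V → E) {L : ℝ} (hL : 1 ≤ L)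
    (h0 : ∀ x, ‖x‖ = 1 → ‖Φ x‖ = L)
    (h1 : ∀ x y, ‖x‖ = 1 → ‖y‖ = 1 → ∃ g ∈ Γ, ‖g x - y‖ ^ 2 ≤ ‖Φ x - Φ y‖ ^ 2)
    (h2 : ∀ x y, ‖x‖ = 1 → ‖y‖ = 1 → ∀ g ∈ Γ, ‖Φ x - Φ y‖ ^ 2 ≤ L ^ 2 * ‖g x - y‖ ^ 2) :
    ∃ f : Orbits Γ → E, distortion f ≤ ENNReal.ofReal L := by
  classical
  have hr : ∀ x : V, ∃ z : V, ‖z‖ = 1 ∧ x = ‖x‖ • z := by
    intro x
    by_cases hx : x = 0
    · exact ⟨e, he, by simp [hx]⟩
    · have : ‖x‖ ≠ 0 := norm_ne_zero_iff.mpr hx
      exact ⟨‖x‖⁻¹ • x, by simp [norm_smul, this], by simp [smul_smul, this]⟩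
  choose r hr1 hr2 using hr
  have key : ∀ {W : Type} [NormedAddCommGroup W] [InnerProductSpace ℝ W] (a b : W) (c s t : ℝ),
      ‖a‖ = c → ‖b‖ = c → ‖s • a - t • b‖ ^ 2 = c ^ 2 * (s - t) ^ 2 + s * t * ‖a - b‖ ^ 2 := by
    intro W _ _ a b c s t ha hb
    rw [@norm_sub_sq_real, @norm_sub_sq_real, norm_smul, norm_smul, inner_smul_left,
      inner_smul_right, ha, hb, mul_pow, mul_pow, Real.norm_eq_abs, Real.norm_eq_abs, sq_abs, sq_abs]
    simp only [conj_trivial]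
    ring
  have eF : ∀ x y, ‖‖x‖ • Φ (r x) - ‖y‖ • Φ (r y)‖ ^ 2 =
      L ^ 2 * (‖x‖ - ‖y‖) ^ 2 + ‖x‖ * ‖y‖ * ‖Φ (r x) - Φ (r y)‖ ^ 2 := fun x y =>
    key _ _ _ _ _ (h0 _ (hr1 x)) (h0 _ (hr1 y))
  have eG : ∀ g ∈ Γ, ∀ x y, ‖g x - y‖ ^ 2 =
      (‖x‖ - ‖y‖) ^ 2 + ‖x‖ * ‖y‖ * ‖g (r x) - r y‖ ^ 2 := fun g hg x y => by
    conv_lhs => rw [hr2 x, hr2 y, hΓ g hg]
    rw [key _ _ 1 _ _ ((hΓ' g hg _).trans (hr1 x)) (hr1 y)]
    ring
  refine exists_descend (fun x => ‖x‖ • Φ (r x)) (by linarith) (fun x y => ?_) fun x y g hg => ?_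
  · obtain ⟨g, hg, h⟩ := h1 _ _ (hr1 x) (hr1 y)
    refine ⟨g, hg, ?_⟩
    rw [dist_eq_norm, dist_eq_norm, ← sq_le_sq₀ (norm_nonneg _) (norm_nonneg _), eF, eG g hg]
    have a1 := mul_le_mul_of_nonneg_left h (mul_nonneg (norm_nonneg x) (norm_nonneg y))
    have a2 : 1 ≤ L ^ 2 := one_le_pow₀ hL
    have a3 := le_mul_of_one_le_left (sq_nonneg (‖x‖ - ‖y‖)) a2
    linarith
  · rw [dist_eq_norm, dist_eq_norm, ← sq_le_sq₀ (norm_nonneg _) (by positivity), eF, mul_pow,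
      eG g hg]
    have a1 := mul_le_mul_of_nonneg_left (h2 _ _ (hr1 x) (hr1 y) g hg)
      (mul_nonneg (norm_nonneg x) (norm_nonneg y))
    linarith

lemma frc_hh : FRc hh := (FRc.rankOne cA).add (FRc.rankOne cB)

lemma frc_hopf : FRc fun x y => ((‖hh x y‖ ^ 2 - ‖om x y‖ ^ 2 : ℝ) : ℂ) := by
  refine (((FRc.rankOne fun x => cA x * conj (cA x) - cB x * conj (cB x)).add
    ((FRc.rankOne fun x => cA x * conj (cB x)).smul zero_le_two)).add
    ((FRc.rankOne fun x => conj (cA x) * cB x).smul zero_le_two)).congr fun x y => ?_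
  push_cast
  rw [← Complex.mul_conj', ← Complex.mul_conj']
  simp only [hh, om, map_add, map_mul, map_sub, Complex.conj_conj]
  ring

lemma exists_embedding {n : ℕ} (hn : 12 ≤ n) :
    ∃ (k : ℕ) (f : Orbits (BD n) → EuclideanSpace ℝ (Fin k)),
      distortion f ≤ ENNReal.ofReal (2 * n * sin (π / (4 * n))) := by
  have hn0 : n ≠ 0 := by omega
  set p := 2 * n with hp
  have hp24 : 24 ≤ p := by omega
  have hp' : (24 : ℝ) ≤ p := by exact_mod_cast hp24
  have hev : Even p := even_two_mul n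
  have hs : sin (π / (4 * n)) = sin (π / (2 * p)) := by rw [hp]; push_cast; ring_nf
  have hpn : (2 * n : ℝ) = p := by rw [hp]; push_cast; ring
  rw [hs, hpn]
  obtain ⟨hα1, hα2⟩ := alpha_bounds hp'
  have hs0 : 0 ≤ sin (π / (2 * p)) := sin_nonneg_of_nonneg_of_le_pi (by positivity)
    (div_le_self pi_pos.le (by linarith))
  set s := sin (π / (2 * p)) with hsdef
  set α := s ^ 2 with hα
  have hα0 : 0 ≤ α := sq_nonneg _
  have c1 : 0 ≤ (p ^ 2 - p) * α / 8 := by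
    have : (0 : ℝ) ≤ p ^ 2 - p := by nlinarith
    positivity
  have c2 : 0 ≤ p ^ 2 * α - α - (p ^ 2 - p) * α / 8 := by
    have : (0 : ℝ) ≤ p ^ 2 - 1 - (p ^ 2 - p) / 8 := by nlinarith
    have := mul_nonneg this hα0
    linarith
  obtain ⟨k, Φ, hΦ⟩ := (((((frc_hh.pow p).sym2 (jq * ·)).smul (c := α / 2) (by positivity)).add
    ((frc_hopf.pow 2).smul c1)).add (FRc.const c2)).exists_map
  have hK : ∀ x y, ‖x‖ = 1 → ‖y‖ = 1 →
      ⟪Φ x, Φ y⟫ = p ^ 2 * α - psi p α (hh x y) (om x y) / 2 := by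
    intro x y hx hy
    have h1 := hh_om x y
    rw [hx, hy] at h1
    rw [hΦ, hh_j_left, hh_j_right, hh_j_j, hev.neg_pow, ← map_pow, ← map_pow, ← Complex.ofReal_pow]
    simp only [Complex.add_re, Complex.re_ofReal_mul, Complex.ofReal_re, Complex.conj_re, psi]
    linear_combination ((p ^ 2 - p) * α / 8 * (‖hh x y‖ ^ 2 + ‖om x y‖ ^ 2 + 1)) * h1
  have hK0 : ∀ x, ‖x‖ = 1 → ‖Φ x‖ ^ 2 = p ^ 2 * α := by
    intro x hx
    rw [← real_inner_self_eq_norm_sq, hK x x hx hx, hh_self hx, om_self]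
    have : p ≠ 0 := by omega
    simp [psi, this]
  have hD : ∀ x y, ‖x‖ = 1 → ‖y‖ = 1 → ‖Φ x - Φ y‖ ^ 2 = psi p α (hh x y) (om x y) := by
    intro x y hx hy
    rw [@norm_sub_sq_real, hK0 x hx, hK0 y hy, hK x y hx hy]; ring
  have hL : (p * s) ^ 2 = p ^ 2 * α := by rw [hα]; ring
  have hun : ∀ {u : ℂ} {x : ℍ[ℝ]}, u ^ p = 1 → ‖x‖ = 1 → ‖(u : ℍ[ℝ]) * x‖ = 1 := fun hu hx => by
    rw [norm_mul, norm_coeC, norm_of_pow (by omega) hu, hx, one_mul]
  have hjn : ∀ {x : ℍ[ℝ]}, ‖x‖ = 1 → ‖jq * x‖ = 1 := fun hx => by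
    rw [norm_mul, norm_jq, hx, one_mul]
  have psi1 : ∀ {u : ℂ} (h w : ℂ), u ^ p = 1 → psi p α (u * h) w = psi p α h w := by
    intro u h w hu
    simp only [psi, mul_pow, hu, one_mul, norm_mul, norm_of_pow (by omega) hu]
  have psi2 : ∀ h w : ℂ, psi p α (conj h) w = psi p α h w := by
    intro h w
    simp only [psi, ← map_pow, Complex.conj_re, Complex.norm_conj]
  refine ⟨k, cone_extend (e := 1) norm_one (fun g hg t x => ?_) (fun g hg x => ?_) Φ ?_
    (fun x hx => ?_) (fun x y hx hy => ?_) fun x y hx hy g hg => ?_⟩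
  · obtain ⟨u, -, h | h⟩ := mem_BD_form hn0 hg <;> simp [h]
  · obtain ⟨u, hu, h | h⟩ := mem_BD_form hn0 hg <;>
      simp [h, norm_coeC, norm_of_pow (by omega : 2 * n ≠ 0) hu, norm_jq]
  · have : 0 ≤ p * s := by positivity
    nlinarith
  · rw [← sq_eq_sq₀ (norm_nonneg _) (by positivity), hK0 x hx, hL]
  · have h1 := hh_om x y
    rw [hx, hy, one_pow, one_mul] at h1
    rw [hD x y hx hy]
    rcases le_total ‖om x y‖ ‖hh x y‖ with h | h
    · obtain ⟨u, hu, h2⟩ := psi_lower hp24 h1 h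
      obtain ⟨g, hg, hg'⟩ := (exists_BD hn0 hu).1
      exact ⟨g, hg, by rwa [hg', dist_sq_unit (hun hu hx) hy, hh_coe_mul]⟩
    · obtain ⟨u, hu, h2⟩ := psi_lower hp24 (h := conj (om x y)) (w := hh x y)
        (by rw [Complex.norm_conj]; linarith) (by rwa [Complex.norm_conj])
      obtain ⟨g, hg, hg'⟩ := (exists_BD hn0 hu).2
      refine ⟨g, hg, ?_⟩
      rwa [hg', dist_sq_unit (hun hu (hjn hx)) hy, hh_coe_mul, hh_j_left, psi_comm, ← psi2]
  · have h1 := hh_om x y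
    rw [hx, hy, one_pow, one_mul] at h1
    rw [hD x y hx hy, hL]
    obtain ⟨u, hu, h | h⟩ := mem_BD_form hn0 hg
    · rw [h, dist_sq_unit (hun hu hx) hy, hh_coe_mul, ← psi1 _ _ hu]
      exact psi_upper (by omega) hα0 (by rwa [norm_mul, norm_of_pow (by omega) hu, one_mul])
    · rw [h, dist_sq_unit (hun hu (hjn hx)) hy, hh_coe_mul, hh_j_left, psi_comm, ← psi2,
        ← psi1 _ _ hu]
      exact psi_upper (by omega) hα0
        (by rw [norm_mul, norm_of_pow (by omega) hu, one_mul, Complex.norm_conj]; linarith)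

lemma re_le_cos {p : ℕ} (hp : 0 < p) {z : ℂ} (hz : z ^ p = -1) : z.re ≤ cos (π / p) := by
  have hp' : (0 : ℝ) < p := by positivity
  have h1 : ‖z‖ = 1 := by
    have : ‖z‖ ^ p = 1 := by rw [← norm_pow, hz]; simp
    exact (pow_eq_one_iff_of_nonneg (norm_nonneg _) hp.ne').mp this
  have h2 := Complex.norm_mul_exp_arg_mul_I z
  rw [h1, Complex.ofReal_one, one_mul] at h2
  have h3 : cos (p * |Complex.arg z|) = -1 := by
    have := congrArg Complex.re hz
    rw [← h2, ← Complex.exp_nat_mul, ← mul_assoc, ← Complex.ofReal_natCast, ← Complex.ofReal_mul,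
      Complex.exp_ofReal_mul_I_re] at this
    rw [← abs_of_pos hp', ← abs_mul, cos_abs, this]
    simp
  have h4 : π / p ≤ |Complex.arg z| := by
    by_contra hlt
    rw [not_le, lt_div_iff₀' hp'] at hlt
    have := cos_lt_cos_of_nonneg_of_le_pi (by positivity) le_rfl hlt
    rw [cos_pi, h3] at this
    exact lt_irrefl _ this
  rw [← h2, Complex.exp_ofReal_mul_I_re, ← cos_abs]
  exact cos_le_cos_of_nonneg_of_le_pi (by positivity) (Complex.abs_arg_le_pi z) h4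

lemma lower_bound {n : ℕ} (hn : 1 ≤ n) {H : Type} [NormedAddCommGroup H] [InnerProductSpace ℝ H]
    (f : Orbits (BD n) → H) : ENNReal.ofReal (2 * n * sin (π / (4 * n))) ≤ distortion f := by
  have hn0 : n ≠ 0 := by omega
  have hn' : (1 : ℝ) ≤ n := by exact_mod_cast hn
  by_cases ht : distortion f = ⊤
  · rw [ht]; exact le_top
  obtain ⟨A, B, hA, hB, e, h1, h2⟩ := bounds_of_distortion ht
  rw [e]
  apply ENNReal.ofReal_le_ofReal
  set c : ℝ → ℍ[ℝ] := fun t => (Complex.exp (t * Complex.I) : ℂ) with hc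
  have hcn : ∀ t, ‖c t‖ = 1 := fun t => by
    rw [hc, norm_coeC]; exact Complex.norm_exp_ofReal_mul_I _
  have hhc : ∀ s t, hh (c s) (c t) = Complex.exp ((s - t : ℝ) * Complex.I) := by
    intro s t
    have a1 : ∀ z : ℂ, cA z = z := fun z => rfl
    have a2 : ∀ z : ℂ, cB z = 0 := fun z => rfl
    simp only [hh, hc, a1, a2, zero_mul, add_zero]
    rw [← Complex.exp_conj, ← Complex.exp_add]
    simp only [map_mul, Complex.conj_ofReal, Complex.conj_I]
    push_cast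
    ring_nf
  have hoc : ∀ s t, om (c s) (c t) = 0 := by
    intro s t
    have a2 : ∀ z : ℂ, cB z = 0 := fun z => rfl
    simp [om, hc, a2]
  set s := sin (π / (4 * n)) with hs
  have hs0 : 0 < s := sin_pos_of_pos_of_lt_pi (by positivity)
    (div_lt_self pi_pos (by linarith))
  have hcos : 2 - 2 * cos (π / (2 * n : ℕ)) = (2 * s) ^ 2 := by
    rw [two_sub_cos, hs]; push_cast
    rw [show π / (2 * n) / 2 = π / (4 * n) by ring]; ring
  have hfar : ∀ t, 2 * s ≤ odist (orb (BD n) (c (t + π / n / 2))) (orb (BD n) (c t)) := by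
    intro t
    refine le_odist fun g hg => ?_
    rw [dist_eq_norm, ← sq_le_sq₀ (by positivity) (norm_nonneg _), ← hcos]
    obtain ⟨u, hu, h | h⟩ := mem_BD_form hn0 hg
    · rw [h, dist_sq_unit (by rw [norm_mul, norm_coeC, norm_of_pow (by omega) hu, hcn, one_mul])
        (hcn _), hh_coe_mul, hhc]
      have := re_le_cos (p := 2 * n) (by omega)
        (z := u * Complex.exp ((t + π / n / 2 - t : ℝ) * Complex.I)) (by
          rw [mul_pow, hu, one_mul, ← Complex.exp_nat_mul, ← Complex.exp_pi_mul_I]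
          congr 1
          have : (n : ℂ) ≠ 0 := by exact_mod_cast hn0
          push_cast
          field_simp
          ring)
      linarith
    · rw [h, dist_sq_unit (by
        rw [norm_mul, norm_mul, norm_coeC, norm_of_pow (by omega) hu, hcn, norm_jq]; simp)
        (hcn _), hh_coe_mul, hh_j_left, hoc]
      have : 0 ≤ cos (π / (2 * n : ℕ)) := cos_nonneg_of_mem_Icc ⟨by
        have : 0 ≤ π / (2 * n : ℕ) := by positivity
        linarith [pi_pos], by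
        push_cast
        exact div_le_div_of_nonneg_left pi_pos.le two_pos (by linarith)⟩
      simp only [map_zero, mul_zero, Complex.zero_re]
      linarith
  have hB0 : 0 < B := by
    rcases hB.eq_or_lt with h | h
    · have := (hfar 0).trans (h1 _ _)
      rw [← h] at this
      linarith
    · exact h
  have key := closed_curve (u := fun t => f (orb (BD n) (c t))) (P := π / n) (A := A)
    (ρ := 2 * s / B) (by positivity) hA (by positivity) (fun t => ?_) (fun a b => ?_) fun t => ?_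
  · rw [← mul_div_assoc, div_le_iff₀ hB0] at key
    have a1 : A * (π / n) * B * n = π * (A * B) := by field_simp
    have a2 := mul_le_mul_of_nonneg_right key (show (0 : ℝ) ≤ n by positivity)
    rw [a1] at a2
    exact le_of_mul_le_mul_left (by linarith) pi_pos
  · obtain ⟨g, hg, hg'⟩ := (exists_BD hn0 (zeta_prim hn0).pow_eq_one).1
    rw [← orb_apply hg (c t), hg', hc]
    simp only
    rw [← coeComplex_mul, ← Complex.exp_add]
    push_cast
    ring_nf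
  · rw [← dist_eq_norm]
    refine (h2 _ _).trans (mul_le_mul_of_nonneg_left ((odist_le' _ _).trans ?_) hA)
    rw [dist_eq_norm, ← sq_le_sq₀ (norm_nonneg _) (abs_nonneg _), dist_sq_unit (hcn _) (hcn _), hhc,
      Complex.exp_ofReal_mul_I_re, sq_abs]
    linarith [one_sub_sq_div_two_le_cos (x := a - b)]
  · rw [← dist_eq_norm, div_le_iff₀' hB0]
    exact (hfar t).trans (h1 _ _)

theorem BD_main {n : ℕ} (hn : 12 ≤ n) :
    c2 (BD n) = ENNReal.ofReal (2 * n * sin (π / (4 * n))) ∧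
      ∃ (k : ℕ) (f : Orbits (BD n) → EuclideanSpace ℝ (Fin k)), distortion f = c2 (BD n) := by
  obtain ⟨k, f, hf⟩ := exists_embedding hn
  have h1 : ENNReal.ofReal (2 * n * sin (π / (4 * n))) ≤ c2 (BD n) :=
    le_c2 fun H _ _ _ g => lower_bound (by omega) g
  have h2 := c2_le f
  exact ⟨le_antisymm (h2.trans hf) h1, k, f, le_antisymm (hf.trans h1) h2⟩

end

end Pool.Agent.Work.MP_0ba68b_gt
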