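import Pool.Agent.Work.MP_0ba68b_gt.Defs
import Mathlib.Analysis.Quaternion
import Mathlib.Analysis.SpecialFunctions.Trigonometric.Basic

/-!
The binary dihedral groups acting on the quaternions.
-/

open Quaternion

namespace Pool.Agent.Work.MP_0ba68b_gt

noncomputable section

/-- The unit quaternion `cos (π / n) + i sin (π / n)`. -/
def zetaQ (n : ℕ) : ℍ[ℝ] := ⟨Real.cos (Real.pi / n), Real.sin (Real.pi / n), 0, 0⟩

/-- The quaternion `j`. -/
def jq : ℍ[ℝ] := ⟨0, 0, 1, 0⟩

/-- The binary dihedral group of order `4 n`: the group of isometries of `ℍ` generated by the left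
multiplications by `cos (π / n) + i sin (π / n)` and by `j`. -/
def BD (n : ℕ) : Subgroup (ℍ[ℝ] ≃ᵢ ℍ[ℝ]) :=
  Subgroup.closure {g | (∀ x, g x = zetaQ n * x) ∨ ∀ x, g x = jq * x}

end

end Pool.Agent.Work.MP_0ba68b_gt
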