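import Mathlib.Analysis.InnerProductSpace.PiL2
import Mathlib.Topology.MetricSpace.Isometry

/-!
Orbit spaces of groups of isometries, distortion and Euclidean distortion.
-/

open scoped ENNReal

namespace Pool.Agent.Work.MP_0ba68b_gt

noncomputable section

/-- The orbit space `V / Γ`: the type of the orbits `Γ x`, as subsets of `V`. -/
def Orbits {V : Type} [MetricSpace V] (Γ : Subgroup (V ≃ᵢ V)) : Type :=
  {s : Set V // ∃ x : V, s = {y | ∃ g ∈ Γ, g x = y}}

/-- The quotient distance: the infimum of the distances between points of the two orbits. -/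
def odist {V : Type} [MetricSpace V] {Γ : Subgroup (V ≃ᵢ V)} (a b : Orbits Γ) : ℝ :=
  sInf {r | ∃ u ∈ a.1, ∃ v ∈ b.1, r = dist u v}

/-- The Lipschitz constant of `f`. -/
def lip {V H : Type} [MetricSpace V] [MetricSpace H] {Γ : Subgroup (V ≃ᵢ V)}
    (f : Orbits Γ → H) : ℝ≥0∞ :=
  ⨆ (a : Orbits Γ) (b : Orbits Γ) (_ : a ≠ b), edist (f a) (f b) / ENNReal.ofReal (odist a b)

/-- The Lipschitz constant of the inverse of `f` (infinite when `f` is not injective). -/
def lipInv {V H : Type} [MetricSpace V] [MetricSpace H] {Γ : Subgroup (V ≃ᵢ V)}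
    (f : Orbits Γ → H) : ℝ≥0∞ :=
  ⨆ (a : Orbits Γ) (b : Orbits Γ) (_ : a ≠ b), ENNReal.ofReal (odist a b) / edist (f a) (f b)

/-- The distortion of `f`: the product of the two Lipschitz constants, and infinity when `f` is
not bi-Lipschitz. -/
def distortion {V H : Type} [MetricSpace V] [MetricSpace H] {Γ : Subgroup (V ≃ᵢ V)}
    (f : Orbits Γ → H) : ℝ≥0∞ :=
  if lip f = ⊤ ∨ lipInv f = ⊤ then ⊤ else lip f * lipInv f

/-- The Euclidean distortion of `V / Γ`: the infimum of the distortions of the maps into real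
Hilbert spaces. -/
def c2 {V : Type} [MetricSpace V] (Γ : Subgroup (V ≃ᵢ V)) : ℝ≥0∞ :=
  ⨅ (H : Type) (_ : NormedAddCommGroup H) (_ : InnerProductSpace ℝ H) (_ : CompleteSpace H)
    (f : Orbits Γ → H), distortion f

end

end Pool.Agent.Work.MP_0ba68b_gt
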